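import Mathlib
import Pool.Agent.H69.SemiL1b

/-!
MP_8f84d8_an, Q1 answered in the negative: no analytic semigroup `(a^t)`, `Re t > 0`, in the
convolution algebra `L¹(ℝ)` is bounded on the half-disc `{t : 0 < |t| ≤ 1, Re t > 0}`.
-/

namespace Pool.Agent.Results.MP_8f84d8_an.NoBoundedSemigroup

open MeasureTheory

/-- `L¹(ℝ)`: classes of complex Lebesgue-integrable functions with norm `∫ |f|`. -/
noncomputable abbrev L1R := Lp ℂ 1 (volume : Measure ℝ)

/-- `h = f * g`, that is `h(x) = ∫ f(x - y) g(y) dy` for almost every `x`. -/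
def IsConvolution (f g h : L1R) : Prop :=
  (h : ℝ → ℂ) =ᵐ[volume] fun x => ∫ y, (f : ℝ → ℂ) (x - y) * (g : ℝ → ℂ) y

/-- An analytic semigroup in `L¹(ℝ)`: holomorphic on the open right half-plane, `a^s * a^t = a^(s+t)`
there, and not identically zero there. (The values of `a` off the half-plane play no role.) -/
structure IsAnalyticSemigroup (a : ℂ → L1R) : Prop where
  holomorphic : DifferentiableOn ℂ a {t : ℂ | 0 < t.re}
  mul : ∀ s t : ℂ, 0 < s.re → 0 < t.re → IsConvolution (a s) (a t) (a (s + t))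
  ne_zero : ∃ t : ℂ, 0 < t.re ∧ a t ≠ 0

/-- Every analytic semigroup in `L¹(ℝ)` is unbounded on the half-disc. -/
theorem result (a : ℂ → L1R) (ha : IsAnalyticSemigroup a) :
    ¬ ∃ C : ℝ, ∀ t : ℂ, 0 < t.re → ‖t‖ ≤ 1 → ‖a t‖ ≤ C := by
  rintro ⟨C, hC⟩
  exact Pool.Agent.H69.SemiL1.final a ha.holomorphic ha.mul ha.ne_zero C hC

end Pool.Agent.Results.MP_8f84d8_an.NoBoundedSemigroup
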